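import Mathlib
import Pool.Agent.Lib.MP_2f98a8_gt.Ev.Final

/-!
A convex hypersurface whose sections by `k`-planes through an interior point, `k` even, are
projectively equivalent is an ellipsoid.
-/

namespace Pool.Agent.Results.MP_2f98a8_gt.EvenSections

open Set Topology
open scoped LinearAlgebra.Projectivization

/-- The point `[x : 1]` of the projective completion `ℙ(W × ℝ)` of the space `W`. -/
noncomputable def projPt (W : Type) [AddCommGroup W] [Module ℝ W] (x : W) : ℙ ℝ (W × ℝ) :=
  Projectivization.mk ℝ ((x, 1) : W × ℝ) (by simp)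

/-- The section of the surface `S` by `O + W`, seen in the projective
completion `ℙ(W × ℝ)`, the point `O + x` being `[x : 1]`. -/
def projSection {E : Type} [AddCommGroup E] [Module ℝ E] (S : Set E) (O : E)
    (W : Submodule ℝ E) : Set (ℙ ℝ (W × ℝ)) :=
  {P | ∃ x : W, O + (x : E) ∈ S ∧ P = projPt W x}

/-- Two subsets of projective spaces are projectively equivalent: an invertible linear map of the
underlying vector spaces carries one onto the other. -/
def ProjEquiv (U₁ U₂ : Type) [AddCommGroup U₁] [Module ℝ U₁] [AddCommGroup U₂] [Module ℝ U₂]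
    (C₁ : Set (ℙ ℝ U₁)) (C₂ : Set (ℙ ℝ U₂)) : Prop :=
  ∃ L : U₁ ≃ₗ[ℝ] U₂, Projectivization.map L.toLinearMap L.injective '' C₁ = C₂

/-- Any two sections of `S` by `k`-dimensional affine subspaces through `O` are projectively
equivalent. -/
def SectionsEquiv {E : Type} [AddCommGroup E] [Module ℝ E] (k : ℕ) (S : Set E) (O : E) : Prop :=
  ∀ W₁ W₂ : Submodule ℝ E, Module.finrank ℝ W₁ = k → Module.finrank ℝ W₂ = k →
    ProjEquiv (W₁ × ℝ) (W₂ × ℝ) (projSection S O W₁) (projSection S O W₂)

/-- `S` is the image of the unit sphere under an invertible affine map. -/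
def IsEllipsoid {E : Type} [NormedAddCommGroup E] [NormedSpace ℝ E] (S : Set E) : Prop :=
  ∃ A : E ≃ᵃ[ℝ] E, S = A '' Metric.sphere 0 1

theorem result (n k : ℕ) (hk : Even k) (h2 : 2 ≤ k) (hn : k < n)
    (K : Set (EuclideanSpace ℝ (Fin n))) (O : EuclideanSpace ℝ (Fin n)) (hv : Convex ℝ K)
    (hc : IsCompact K) (hO : O ∈ interior K) (H : SectionsEquiv k (frontier K) O) :
    IsEllipsoid (frontier K) := by
  have : Nonempty (Fin n) := ⟨⟨0, by omega⟩⟩
  let T : EuclideanSpace ℝ (Fin n) ≃ₜ EuclideanSpace ℝ (Fin n) := Homeomorph.addLeft O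
  have hf : ∀ x, x ∈ frontier (T ⁻¹' K) ↔ O + x ∈ frontier K := fun x => by
    rw [← T.preimage_frontier]; rfl
  obtain ⟨A, hA⟩ := Pool.Agent.Lib.MP_2f98a8_gt.Ev.main (K := T ⁻¹' K) hk h2 hn
    (hv.translate_preimage_right O) (T.isCompact_preimage.2 hc)
    (by rw [← T.preimage_interior]; simpa [T] using hO) (by
      intro W₁ W₂ d₁ d₂
      obtain ⟨L, hL⟩ := H W₁ W₂ d₁ d₂
      refine ⟨L, ?_⟩
      ext p
      constructor
      · rintro ⟨_, ⟨t, x, hx, rfl⟩, rfl⟩
        obtain ⟨y, hy, e⟩ : Projectivization.map L.toLinearMap L.injective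
            (Projectivization.mk ℝ ((x, 1) : W₁ × ℝ) (by simp)) ∈ projSection (frontier K) O W₂ := by
          rw [← hL]
          exact mem_image_of_mem _ ⟨x, (hf _).1 hx, rfl⟩
        rw [projPt, Projectivization.map_mk, Projectivization.mk_eq_mk_iff'] at e
        obtain ⟨c, e⟩ := e
        refine ⟨t * c, y, (hf _).2 hy, ?_⟩
        have e1 : ((t • x, t) : W₁ × ℝ) = t • (x, 1) := by simp
        have e2 : L (x, 1) = c • (y, 1) := e.symm
        rw [e1, map_smul, e2]
        simp [smul_smul]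
      · rintro ⟨t, y, hy, rfl⟩
        obtain ⟨_, ⟨x, hx, rfl⟩, e⟩ : Projectivization.mk ℝ ((y, 1) : W₂ × ℝ) (by simp) ∈
            Projectivization.map L.toLinearMap L.injective '' projSection (frontier K) O W₁ := by
          rw [hL]
          exact ⟨y, (hf _).1 hy, rfl⟩
        rw [projPt, Projectivization.map_mk, eq_comm, Projectivization.mk_eq_mk_iff'] at e
        obtain ⟨c, e⟩ := e
        refine ⟨((t * c) • x, t * c), ⟨t * c, x, (hf _).2 hx, rfl⟩, ?_⟩
        have e1 : (((t * c) • x, t * c) : W₁ × ℝ) = t • c • (x, 1) := by simp [smul_smul]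
        have e2 : c • L (x, 1) = (y, 1) := e
        rw [e1, map_smul, map_smul, e2]
        simp)
  refine ⟨A.trans (AffineEquiv.constVAdd ℝ _ O), ?_⟩
  have h1 : frontier (T ⁻¹' K) = A '' Metric.sphere 0 1 := by
    rw [hA, ← frontier_closedBall (0 : EuclideanSpace ℝ (Fin n)) one_ne_zero]
    exact ((AffineEquiv.toContinuousAffineEquiv A).toHomeomorph.image_frontier _).symm
  ext y
  constructor
  · intro hy
    obtain ⟨x, hx, e⟩ : y - O ∈ A '' Metric.sphere 0 1 := h1 ▸ (hf _).2 (by simpa using hy)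
    exact ⟨x, hx, by simp [e]⟩
  · rintro ⟨x, hx, rfl⟩
    exact (hf _).1 (h1 ▸ mem_image_of_mem _ hx)

end Pool.Agent.Results.MP_2f98a8_gt.EvenSections
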